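import Mathlib
import Pool.Agent.Lib.MP_1ff796_co.Main

/-!
# Directed 4-cycle factors at minimum semi-degree `(1/2 + η) n`, with deletions
-/

set_option autoImplicit false

namespace Pool.Agent.Results.MP_1ff796_co.RobustFactor

universe u

/-- `F` is a `C₄`-factor of the digraph induced on the vertex set `U` by the edge relation `E`:
every member `c` of `F` is a directed 4-cycle `c 0 → c 1 → c 2 → c 3 → c 0` on four distinct
vertices, different members of `F` have no vertex in common, and the vertices of the members are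
exactly the elements of `U`. -/
def IsC4Factor {V : Type u} (E : V → V → Prop) (U : Set V) (F : Set (Fin 4 → V)) : Prop :=
  (∀ c ∈ F, Function.Injective c ∧
    E (c 0) (c 1) ∧ E (c 1) (c 2) ∧ E (c 2) (c 3) ∧ E (c 3) (c 0)) ∧
  (∀ c ∈ F, ∀ c' ∈ F, c ≠ c' → Disjoint (Set.range c) (Set.range c')) ∧
  (⋃ c ∈ F, Set.range c) = U

theorem isC4Factor_of_tiled {V : Type u} {W : Type} (E : V → V → Prop) (G : W → W → Prop)
    (g : W → V) (hg : Function.Injective g) (hE : ∀ a b, G a b → E (g a) (g b))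
    (h : Pool.Agent.C4F.Tiled G (Set.univ : Set W)) :
    ∃ F : Set (Fin 4 → V), IsC4Factor E (Set.range g) F := by
  obtain ⟨ι, _, f, hf, hfE, hfr⟩ := h
  refine ⟨Set.range fun i : ι => fun j => g (f (i, j)), ?_, ?_, ?_⟩
  · rintro _ ⟨i, rfl⟩
    refine ⟨fun a b hab => ?_, hE _ _ (hfE i 0), hE _ _ (hfE i 1), hE _ _ (hfE i 2),
      hE _ _ (hfE i 3)⟩
    have := hf (hg hab)
    exact (Prod.ext_iff.1 this).2
  · rintro _ ⟨i, rfl⟩ _ ⟨i', rfl⟩ hne
    rw [Set.disjoint_left]
    rintro _ ⟨a, rfl⟩ ⟨b, hb⟩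
    apply hne
    have := hf (hg hb)
    have h1 : i' = i := (Prod.ext_iff.1 this).1
    rw [h1]
  · ext v
    simp only [Set.mem_iUnion, Set.mem_range, exists_prop, exists_exists_eq_and]
    constructor
    · rintro ⟨i, j, rfl⟩
      exact ⟨_, rfl⟩
    · rintro ⟨w, rfl⟩
      have hw : w ∈ Set.range f := by rw [hfr]; exact Set.mem_univ w
      obtain ⟨⟨i, j⟩, rfl⟩ := hw
      exact ⟨i, j, rfl⟩

/-- Deleting a set `R` of vertices lowers a degree by at most `|R|`. -/
theorem deg_le {V : Type u} [Fintype V] (P : V → V → Prop) (R : Set V) (v : V) {k : ℕ}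
    (e : Fin k ≃ {w : V // w ∉ R}) :
    {w : V | w ≠ v ∧ P v w}.ncard ≤ {b : Fin k | P v (e b).1}.ncard + R.ncard := by
  have h1 : ((fun b : Fin k => (e b).1) '' {b : Fin k | P v (e b).1}).ncard =
      {b : Fin k | P v (e b).1}.ncard :=
    Set.ncard_image_of_injective _ (Subtype.val_injective.comp e.injective)
  rw [← h1]
  refine le_trans (Set.ncard_le_ncard ?_ (Set.toFinite _)) (Set.ncard_union_le _ _)
  rintro w ⟨_, hw⟩
  by_cases hR : w ∈ R
  · exact Or.inr hR
  · refine Or.inl ⟨e.symm ⟨w, hR⟩, ?_, ?_⟩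
    · simpa using hw
    · simp

/-- For every `η > 0` there is `n₀` such that in every digraph `E` on a set `V` of `n ≥ n₀`
vertices in which every vertex `v` has at least `(1/2 + η) n` outneighbours and at least
`(1/2 + η) n` inneighbours different from `v`, for every set `R` of at most `η n / 2` vertices
such that `4` divides `n - |R|`, the digraph `E - R` has a `C₄`-factor. (`R = ∅` is the
question.) -/
theorem result :
    ∀ η : ℝ, 0 < η → ∃ n₀ : ℕ, ∀ (V : Type u) [Fintype V] (E : V → V → Prop),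
      n₀ ≤ Fintype.card V →
      (∀ v : V,
        (1 / 2 + η) * (Fintype.card V : ℝ) ≤ ({w : V | w ≠ v ∧ E v w}.ncard : ℝ) ∧
        (1 / 2 + η) * (Fintype.card V : ℝ) ≤ ({w : V | w ≠ v ∧ E w v}.ncard : ℝ)) →
      ∀ R : Set V, (R.ncard : ℝ) ≤ η / 2 * (Fintype.card V : ℝ) →
        4 ∣ Fintype.card V - R.ncard →
        ∃ F : Set (Fin 4 → V), IsC4Factor E Rᶜ F := by
  classical
  intro η hη
  obtain ⟨n0, hn0⟩ := Pool.Agent.C4F.perfect (η / 2) (half_pos hη)
  refine ⟨2 * n0 + 1, fun V _ E hn hdeg R hR h4 => ?_⟩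
  have hpos : 0 < Fintype.card V := by omega
  obtain ⟨v0⟩ := Fintype.card_pos_iff.1 hpos
  have hη2 : η < 1 / 2 := by
    have h1 := (hdeg v0).1
    have h2 : {w : V | w ≠ v0 ∧ E v0 w}.ncard < Fintype.card V := by
      rw [← Nat.card_eq_fintype_card, ← Set.ncard_univ]
      refine Set.ncard_lt_ncard ?_ (Set.toFinite _)
      rw [Set.ssubset_univ_iff, Set.ne_univ_iff_exists_notMem]
      exact ⟨v0, fun h => h.1 rfl⟩
    have h3 : (({w : V | w ≠ v0 ∧ E v0 w}.ncard : ℕ) : ℝ) < (Fintype.card V : ℝ) := by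
      exact_mod_cast h2
    have h4 : (0 : ℝ) < (Fintype.card V : ℝ) := by exact_mod_cast hpos
    by_contra hc
    have h5 : (1 : ℝ) * (Fintype.card V : ℝ) ≤ (1 / 2 + η) * (Fintype.card V : ℝ) :=
      mul_le_mul_of_nonneg_right (by linarith [not_lt.1 hc]) h4.le
    linarith
  have hcard : Fintype.card {w : V // w ∉ R} = Fintype.card V - R.ncard := by
    have h1 := Set.ncard_add_ncard_compl R
    rw [Nat.card_eq_fintype_card] at h1
    have h2 : Fintype.card {w : V // w ∉ R} = Rᶜ.ncard := by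
      rw [← Nat.card_eq_fintype_card]; rfl
    omega
  have hle : R.ncard ≤ Fintype.card V := by
    rw [← Nat.card_eq_fintype_card, ← Set.ncard_univ]
    exact Set.ncard_le_ncard (Set.subset_univ _) (Set.toFinite _)
  set k := Fintype.card {w : V // w ∉ R} with hk
  have hkR : (k : ℝ) = (Fintype.card V : ℝ) - R.ncard := by
    rw [hcard]; push_cast [hle]; ring
  have hnn : (0 : ℝ) ≤ (Fintype.card V : ℝ) := Nat.cast_nonneg _
  have hR0 : (0 : ℝ) ≤ (R.ncard : ℝ) := Nat.cast_nonneg _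
  let e : Fin k ≃ {w : V // w ∉ R} := (Fintype.equivFin _).symm
  have hbig : n0 ≤ Fintype.card (Fin k) := by
    rw [Fintype.card_fin]
    have h1 : ((2 * n0 + 1 : ℕ) : ℝ) ≤ (Fintype.card V : ℝ) := by exact_mod_cast hn
    push_cast at h1
    have h2 : η / 2 * (Fintype.card V : ℝ) ≤ 1 / 4 * (Fintype.card V : ℝ) :=
      mul_le_mul_of_nonneg_right (by linarith) hnn
    have h3 : (n0 : ℝ) ≤ (k : ℝ) := by
      have h0 : (0 : ℝ) ≤ n0 := Nat.cast_nonneg _
      linarith
    exact_mod_cast h3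
  have hcomp : ∀ x y : ℕ, (1 / 2 + η) * (Fintype.card V : ℝ) ≤ (x : ℝ) → x ≤ y + R.ncard →
      (1 / 2 + η / 2) * (Fintype.card (Fin k) : ℝ) ≤ (y : ℝ) := by
    intro x y hx hxy
    rw [Fintype.card_fin]
    have h1 : (x : ℝ) ≤ (y : ℝ) + R.ncard := by exact_mod_cast hxy
    have h2 : (1 / 2 + η / 2) * (k : ℝ) ≤ (1 / 2 + η / 2) * (Fintype.card V : ℝ) :=
      mul_le_mul_of_nonneg_left (by linarith) (by linarith)
    linarith
  have H := hn0 (Fin k) (fun a b => E (e a).1 (e b).1) hbig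
    (by rw [Fintype.card_fin, hcard]; exact h4)
    (fun a => by
      rw [Pool.Agent.C4F.dout_eq_ncard]
      exact hcomp _ _ (hdeg (e a).1).1 (deg_le E R (e a).1 e))
    (fun a => by
      rw [Pool.Agent.C4F.din_eq_ncard]
      exact hcomp _ _ (hdeg (e a).1).2 (deg_le (fun x y => E y x) R (e a).1 e))
  obtain ⟨F, hF⟩ := isC4Factor_of_tiled E (fun a b : Fin k => E (e a).1 (e b).1)
    (fun a => (e a).1) (Subtype.val_injective.comp e.injective) (fun _ _ h => h) H
  have hrange : Set.range (fun a : Fin k => (e a).1) = Rᶜ := by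
    ext w
    constructor
    · rintro ⟨a, rfl⟩
      exact (e a).2
    · intro hw
      exact ⟨e.symm ⟨w, hw⟩, by simp⟩
  rw [hrange] at hF
  exact ⟨F, hF⟩

end Pool.Agent.Results.MP_1ff796_co.RobustFactor
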